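import Pool.Agent.X167.NU.Chk2

/-! The inequalities of the criterion for large `n`. -/

namespace Pool.Agent.X167.NU

theorem good_large {n a c : ℕ} (hn : n = 4 * a + c) (hc : c ≤ 5) (h226 : 226 ≤ n) : Good n a c := by
  intro m τ b ε cf t X hm hτ hb hX _
  obtain ⟨s, hs⟩ : ∃ s : ℝ, s = √(n : ℝ) := ⟨_, rfl⟩
  have hnR : (226 : ℝ) ≤ n := by exact_mod_cast h226
  have hss : s * s = n := by rw [hs]; exact Real.mul_self_sqrt (by linarith)
  have hs15 : 15.03 ≤ s := by rw [hs]; exact Real.le_sqrt_of_sq_le (by norm_num; linarith)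
  rw [← hs] at hm hX
  obtain ⟨hX1, hX2⟩ := abs_le.1 hX
  have hn4 : (n : ℝ) = 4 * a + c := by rw [hn]; push_cast; ring
  have hcR : (c : ℝ) ≤ 5 := by exact_mod_cast hc
  have hc0 : (0 : ℝ) ≤ c := Nat.cast_nonneg c
  have hr : ((n % 4 : ℕ) : ℝ) ≤ 3 := by exact_mod_cast (by omega : n % 4 ≤ 3)
  have hRE : (n : ℝ) / 2 - 2 * s / 3 - 15 / 2 ≤ RE n := by
    have : (n : ℝ) / 2 - 2 * √(n : ℝ) / 3 - 9 / 2 - ((n % 4 : ℕ) : ℝ) ≤ RE n := le_max_right _ _
    rw [← hs] at this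
    linarith
  have hRS : (n : ℝ) / 2 - 2 * s / 3 - 15 / 2 ≤ RS n := by
    have : (n : ℝ) / 2 - 2 * √(n : ℝ) / 3 - 1 / 2 ≤ RS n := le_max_right _ _
    rw [← hs] at this
    linarith
  obtain ⟨R, hR⟩ : ∃ R : ℝ, R = (n : ℝ) / 2 - 2 * s / 3 - 15 / 2 := ⟨_, rfl⟩
  rw [← hR] at hRE hRS
  have hsn : 15.03 * s ≤ n := by rw [← hss]; exact mul_le_mul_of_nonneg_right hs15 (by linarith)
  have hab : a ≤ b := by
    have h1 : (a : ℝ) ≤ b := by
      have h2 : 2 * (m : ℝ) ≤ b := by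
        have : 2 * m ≤ b := by rcases hb with ⟨h, _⟩ | ⟨h, _⟩ <;> omega
        exact_mod_cast this
      linarith
    exact_mod_cast h1
  rcases lt_or_ge (2 * ((min τ (2 * a - τ) : ℕ) : ℝ) + c + (2 * s / 3 + 9 / 4)) R with hA | hA
  · -- one kind of clusters
    rcases le_total τ a with hτa | hτa
    · rw [min_eq_left (by omega)] at hA
      refine ⟨a - τ, τ, 0, by omega, by omega, by linarith, by linarith, Or.inr (Or.inl rfl),
        Or.inr (Or.inl rfl)⟩
    · rw [min_eq_right (by omega)] at hA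
      refine ⟨0, 2 * a - τ, τ - a, by omega, by omega, by linarith, by linarith, Or.inl rfl, Or.inl rfl⟩
  · obtain ⟨x1, hx1⟩ : ∃ x1, x1 = τ % 2 := ⟨_, rfl⟩
    obtain ⟨x2, hx2⟩ : ∃ x2, x2 = τ / 2 := ⟨_, rfl⟩
    obtain ⟨x0, hx0⟩ : ∃ x0, x0 = a - x1 - x2 := ⟨_, rfl⟩
    have hsum : x0 + x1 + x2 = a := by omega
    have hτ2 : x1 + 2 * x2 = τ := by omega
    have hx1' : x1 ≤ 1 := by omega
    have hx1R : (x1 : ℝ) ≤ 1 := by exact_mod_cast hx1'
    have hsumR : (x0 : ℝ) + x1 + x2 = a := by exact_mod_cast hsum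
    have hτR : (x1 : ℝ) + 2 * x2 = τ := by exact_mod_cast hτ2
    have hx10 : (0 : ℝ) ≤ x1 := Nat.cast_nonneg _
    have hR0 : 45 ≤ R := by rw [hR]; linarith
    have hRn : (n : ℝ) / 4 + (4 * s / 3) + 20 ≤ n / 2 := by nlinarith
    refine ⟨x0, x1, x2, hsum, hτ2, ?_, ?_, ?_, ?_⟩
    · linarith
    · linarith
    · rcases Nat.eq_zero_or_pos x2 with h2 | h2
      · exact Or.inr (Or.inl h2)
      rcases le_total a τ with hτa | hτa
      · -- few clusters of the first kind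
        refine Or.inr (Or.inr (Or.inl ⟨x0 / 2, by omega, ?_, ?_⟩))
        · have h1 : b + 1 ≤ 2 * ((b + 2) / 2) := by omega
          have h2 : 2 * (x0 / 2) ≤ x0 := by omega
          calc x0 / 2 * (b + 1) ≤ x0 / 2 * (2 * ((b + 2) / 2)) := Nat.mul_le_mul_left _ h1
            _ = 2 * (x0 / 2) * ((b + 2) / 2) := by ring
            _ ≤ _ := Nat.mul_le_mul_right _ h2
        · have h3 : (x0 : ℝ) ≤ 2 * (x0 / 2 : ℕ) + 1 := by exact_mod_cast (by omega : x0 ≤ 2 * (x0 / 2) + 1)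
          have h4 : (a : ℝ) ≤ τ := by exact_mod_cast hτa
          linarith
      · refine Or.inr (Or.inr (Or.inr ⟨(x2 - 1) / 2, by omega, ?_, ?_⟩))
        · obtain ⟨j, hj⟩ : ∃ j, j = (x2 - 1) / 2 := ⟨_, rfl⟩
          rw [← hj]
          have h1 : b + 1 ≤ 2 * ((b + 2) / 2) := by omega
          have h2 : 2 * j + 1 ≤ x2 := by omega
          have h3 : 2 * j ≤ b + 1 := by omega
          have h4 : (2 * j + 1) * (b + 1) ≤ x2 * (2 * ((b + 2) / 2)) := Nat.mul_le_mul h2 h1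
          have h5 : 2 * (j * (b + 2)) = 2 * j * (b + 1) + 2 * j := by ring
          have h6 : (2 * j + 1) * (b + 1) = 2 * j * (b + 1) + (b + 1) := by ring
          have h7 : x2 * (2 * ((b + 2) / 2)) = 2 * (x2 * ((b + 2) / 2)) := by ring
          omega
        · have h3 : (x2 : ℝ) ≤ 2 * ((x2 - 1) / 2 : ℕ) + 2 := by
            exact_mod_cast (by omega : x2 ≤ 2 * ((x2 - 1) / 2) + 2)
          have h4 : (τ : ℝ) ≤ a := by exact_mod_cast hτa
          linarith
    · rcases Nat.eq_zero_or_pos x0 with h0 | h0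
      · exact Or.inl h0
      rcases Nat.eq_zero_or_pos x2 with h2 | h2
      · exact Or.inr (Or.inl h2)
      refine Or.inr (Or.inr ⟨0, x0 - (x0 / 2 + 1), x2, Nat.zero_le _, Nat.sub_le _ _, le_rfl, by omega,
        h2, ?_, ?_, ?_⟩)
      · push_cast
        linarith
      · have h3 : ((x0 - (x0 / 2 + 1) : ℕ) : ℝ) = x0 - ((x0 / 2 : ℕ) + 1) := by
          rw [Nat.cast_sub (by omega)]
          push_cast
          ring
        rw [h3]
        have h4 : 2 * ((x0 / 2 : ℕ) : ℝ) ≤ x0 := by exact_mod_cast (by omega : 2 * (x0 / 2) ≤ x0)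
        -- `2 a - τ` is small
        have h5 : 2 * (a : ℝ) - τ + (6 + c + (2 * s / 3 + 9 / 4)) < R := by
          rcases le_total τ a with hτa | hτa
          · rw [min_eq_left (by omega)] at hA
            rw [hR] at hA ⊢
            nlinarith
          · have h4 : (a : ℝ) ≤ τ := by exact_mod_cast hτa
            linarith
        linarith
      · rw [Nat.sub_self, add_zero, Nat.sub_sub_self (by omega)]
        have h1 : 2 * ((b + 2) / 2) ≤ b + 2 := by omega
        have h3 : x0 * ((b + 2) / 2) ≤ (x0 / 2 + 1) * (b + 1) := by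
          have h4 : x0 * (2 * ((b + 2) / 2)) ≤ x0 * (b + 2) := Nat.mul_le_mul_left _ h1
          have h5 : (x0 + 1) * (b + 1) ≤ (2 * (x0 / 2) + 2) * (b + 1) := Nat.mul_le_mul_right _ (by omega)
          have h6 : x0 * (2 * ((b + 2) / 2)) = 2 * (x0 * ((b + 2) / 2)) := by ring
          have h7 : (2 * (x0 / 2) + 2) * (b + 1) = 2 * ((x0 / 2 + 1) * (b + 1)) := by ring
          have h8 : (x0 + 1) * (b + 1) = x0 * (b + 2) + (b + 1) - x0 := by
            have : (x0 + 1) * (b + 1) + x0 = x0 * (b + 2) + (b + 1) := by ring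
            omega
          omega
        have h9 := Nat.mul_le_mul_left x2 h3
        omega

end Pool.Agent.X167.NU
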