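import Pool.Agent.TH335.EN.EndS
import Pool.Agent.TH641.NW.Win
import Pool.Agent.TH641.NW.Cnt2
import Pool.Agent.TH641.NW.Inst

/-! Independence for `a` points with multiplicities `b` and `b + 1` and `c` points with multiplicities
`v`, `n = 4 a + c`, in the plane. -/

namespace Pool.Agent.X167.NU

open Finset Pool.Agent.TH176.Nag Pool.Agent.TH603.Sur Pool.Agent.TH603.Cut Pool.Agent.TH181.NagM
open Pool.Agent.TH648.SH Pool.Agent.TH760.EN Pool.Agent.TH335.EN Filter Topology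

/-- the small triangle, independence; `V` is the sum of the multiplicities -/
def QI (c b V : ℕ) : Set (ℤ × ℤ) :=
  {p | 0 ≤ p.1 ∧ 0 ≤ p.2 ∧ p.2 ≤ (b : ℤ) ∧ 4 * p.1 + (c : ℤ) * p.2 + 4 ≤ 2 * (V : ℤ) + (c : ℤ)}

/-- the triangle of slope `n / 4`, `n = 4 a + c` -/
def QN (a c b Z V : ℕ) : Set (ℤ × ℤ) :=
  {p | 0 ≤ p.1 ∧ 0 ≤ p.2 ∧ p.2 ≤ (b : ℤ) ∧
    4 * p.1 + (4 * (a : ℤ) + c) * p.2 + 4 ≤ 4 * (Z : ℤ) + 2 * (V : ℤ) + c}

theorem Sur_tri {a c b V : ℕ} {v : Fin c → ℕ} (h : Sur v (QI c b V)) {u : Fin a → ℕ}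
    (hu : ∀ i, u i = b ∨ u i = b + 1) (hb1 : c * b ≤ 2 * V + c) :
    Sur (Sum.elim u v) (QN a c b (∑ i, u i) V) := by
  obtain ⟨Z, hZ⟩ : ∃ Z, Z = ∑ i, u i := ⟨_, rfl⟩
  rw [← hZ]
  have hab : a * b ≤ Z := by
    rw [hZ]
    have : a * b = ∑ _i : Fin a, b := by simp
    rw [this]
    exact sum_le_sum fun i _ => by rcases hu i with h | h <;> omega
  have h1 : Sur u
      {p : ℤ × ℤ | 0 ≤ p.1 ∧ 0 ≤ p.2 ∧ p.1 + (a : ℤ) * p.2 < Z ∧ p.2 ≤ b} := by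
    apply Sur_rows _ 0
    intro k j hj
    have hk : k ≤ b := by
      by_contra hcon
      have : ∑ i, (u i - k) = 0 := sum_eq_zero fun i _ => by rcases hu i with h | h <;> omega
      omega
    have h2 : ∑ i, (u i - k) + a * k = Z := by
      have : a * k = ∑ _i : Fin a, k := by simp
      rw [this, ← sum_add_distrib, hZ]
      exact sum_congr rfl fun i _ => by rcases hu i with h | h <;> omega
    refine ⟨by simp, by simp, ?_, by simp only; omega⟩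
    simp only [zero_add]
    have h3 : j + a * k < Z := by omega
    exact_mod_cast h3
  have h2 : Sur v
      {p : ℤ × ℤ | 0 ≤ p.2 ∧ (Z : ℤ) ≤ p.1 + (a : ℤ) * p.2 ∧ p.2 ≤ b ∧
        4 * p.1 + (4 * (a : ℤ) + c) * p.2 + 4 ≤ 4 * (Z : ℤ) + 2 * (V : ℤ) + c} := by
    refine h.comap 1 a 0 1 (-(Z : ℤ)) 0 (by norm_num) ?_
    rintro ⟨i, y⟩ ⟨k1, k2, k3, k4⟩
    simp only at k1 k2 k3 k4
    refine ⟨(i + Z - a * y, y), ⟨k2, ?_, k3, ?_⟩, ?_⟩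
    · simp only
      linarith
    · simp only
      linarith
    · simp only [Prod.mk.injEq]
      exact ⟨by ring, by ring⟩
  have key : ∀ p : ℤ × ℤ, 0 ≤ p.2 → (Z : ℤ) ≤ p.1 + (a : ℤ) * p.2 → p.2 ≤ (b : ℤ) → 0 ≤ p.1 := by
    intro p k1 k2 h4
    have h5 : (a : ℤ) * p.2 ≤ a * b := mul_le_mul_of_nonneg_left h4 (by positivity)
    have h6 : (a : ℤ) * b ≤ Z := by exact_mod_cast hab
    linarith
  have h3 := Sur_cut (fun p hp => ⟨hp.1, hp.2.1⟩) (fun p hp => ⟨key p hp.1 hp.2.1 hp.2.2.1, hp.1⟩) 1 a ?_ h1 h2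
  · refine h3.mono ?_
    rintro p (⟨k1, k2, k3, k4⟩ | ⟨k1, k2, k3, k4⟩)
    · refine ⟨k1, k2, k4, ?_⟩
      have k5 : (c : ℤ) * b ≤ 2 * V + c := by exact_mod_cast hb1
      have k6 : (c : ℤ) * p.2 ≤ c * b := mul_le_mul_of_nonneg_left k4 (by positivity)
      linarith
    · exact ⟨key p k1 k2 k3, k1, k3, k4⟩
  · rintro p ⟨k1, k2, k3, k4⟩ p' ⟨k1', k2', k3', k4'⟩
    linarith

/-- the right triangle of real slope `s ^ 2` slightly larger than `n / 4` -/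
theorem Sur_regO' {a c b Z V : ℕ} {w : Fin a ⊕ Fin c → ℕ} (h : Sur w (QN a c b Z V)) {s α B : ℝ}
    (hs : a + (c : ℝ) / 4 ≤ s ^ 2)
    (hB : (4 * Z + 2 * V + c) / 4 + (a + (c : ℝ) / 4) + (b + 1) * (s ^ 2 - (a + (c : ℝ) / 4)) < B) :
    Sur w (RegO α (α + B) 0 (s ^ 2)) := by
  refine h.shift (-(⌊α⌋ + 1)) (-1) ?_
  rintro ⟨x, y⟩ ⟨k1, k2, k3, k4⟩
  simp only at k1 k2 k3 k4
  have k1' : (0 : ℝ) ≤ x := by exact_mod_cast k1
  have k2' : (0 : ℝ) ≤ y := by exact_mod_cast k2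
  have k3' : (y : ℝ) ≤ b := by exact_mod_cast k3
  have k4' : 4 * (x : ℝ) + (4 * a + c) * y + 4 ≤ 4 * Z + 2 * V + c := by exact_mod_cast k4
  have f1 := Int.floor_le α
  have f2 := Int.lt_floor_add_one α
  refine ⟨by simp only; omega, ?_, ?_⟩
  · simp only
    push_cast
    linarith
  · simp only
    push_cast
    have k5 : (s ^ 2 - (a + (c : ℝ) / 4)) * (y + 1) ≤ (s ^ 2 - (a + (c : ℝ) / 4)) * (b + 1) :=
      mul_le_mul_of_nonneg_left (by linarith) (by linarith)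
    linarith

theorem Sur_plane_irr' {a c b Z V d : ℕ} {w : Fin a ⊕ Fin c → ℕ} (h : Sur w (QN a c b Z V)) {r : ℝ}
    (hr : 3 ≤ r) (hirr : Irrational r) (hs : a + (c : ℝ) / 4 ≤ r ^ 2)
    (hB : (4 * Z + 2 * V + c) / 4 + (a + (c : ℝ) / 4) + (b + 1) * (r ^ 2 - (a + (c : ℝ) / 4)) <
      r * (d + 3)) :
    Sur w (TZ d) := by
  have hr0 : 0 < r := by linarith
  set L : ℝ := (4 * Z + 2 * V + c) / 4 + (a + (c : ℝ) / 4) + (b + 1) * (r ^ 2 - (a + (c : ℝ) / 4)) with hL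
  have hL0 : 0 ≤ L := by
    have h1 : 0 ≤ r ^ 2 - (a + (c : ℝ) / 4) := by linarith
    positivity
  have hc0 : 0 ≤ L / r := by positivity
  have hcd : L / r < d + 3 := by
    rw [div_lt_iff₀ hr0]
    linarith
  have hSP : SP w (L / r) 0 (r ^ 2) := by
    refine ⟨by positivity, fun E hE α => ?_⟩
    rw [zero_add, Real.sqrt_sq hr0.le]
    apply Sur_regO' h hs
    rw [← hL]
    rwa [div_lt_iff₀ hr0] at hE
  obtain ⟨k, τ, hk, h0, h1⟩ := exists_tau r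
  have h2 := (Mv_tau hr k hk).closed (SP_closed hc0) hSP
  have h3 := h2.2 ((d : ℝ) + 3) hcd (-(((d : ℝ) + 3) * (1 + τ)))
  have e1 : 3 * (1 + τ) + 3 * (2 - τ) = (3 : ℝ) ^ 2 := by ring
  rw [e1, Real.sqrt_sq (by norm_num)] at h3
  have e2 : -(((d : ℝ) + 3) * (1 + τ)) + ((d : ℝ) + 3) * 3 = ((d : ℝ) + 3) * (2 - τ) := by ring
  rw [e2] at h3
  refine Sur_keyO h0 h1 ?_ h3
  intro hq
  obtain ⟨q, hq⟩ := hq
  apply hirr
  refine ⟨(k + 3 * q) / 3, ?_⟩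
  push_cast
  rw [hq]
  linarith

/-- **independence**, condition `2 Σ u + V + 2 a + c < √n (d + 3)` -/
theorem leafS_P {a c b V n d : ℕ} {v : Fin c → ℕ} (h : Sur v (QI c b V)) {u : Fin a → ℕ}
    (hu : ∀ i, u i = b ∨ u i = b + 1) (hb1 : c * b ≤ 2 * V + c) (hn : n = 4 * a + c) (hn36 : 36 ≤ n)
    (hd : 2 * ((∑ i, u i : ℕ) : ℝ) + V + 2 * a + c < √(n : ℝ) * (d + 3)) :
    Sur (Sum.elim u v) (TZ d) := by
  have hT := Sur_tri h hu hb1
  obtain ⟨Z, hZ⟩ : ∃ Z, Z = ∑ i, u i := ⟨_, rfl⟩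
  rw [← hZ] at hT hd
  have hn' : (n : ℝ) = 4 * a + c := by rw [hn]; push_cast; ring
  have hn36' : (36 : ℝ) ≤ n := by exact_mod_cast hn36
  set r₀ : ℝ := √(n : ℝ) / 2 with hr₀
  have hsq : √(n : ℝ) ^ 2 = n := Real.sq_sqrt (by linarith)
  have hr₀2 : r₀ ^ 2 = a + (c : ℝ) / 4 := by
    rw [hr₀, div_pow, hsq, hn']; ring
  have hr₀3 : 3 ≤ r₀ := by
    have h1 : (6 : ℝ) ≤ √(n : ℝ) := by
      apply Real.le_sqrt_of_sq_le
      linarith
    rw [hr₀]; linarith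
  -- a slightly larger slope
  have hcont : Filter.Tendsto (fun s : ℝ => s * ((d : ℝ) + 3) -
      ((4 * Z + 2 * V + c) / 4 + (a + (c : ℝ) / 4) + (b + 1) * (s ^ 2 - (a + (c : ℝ) / 4)))) (𝓝 r₀)
      (𝓝 (r₀ * ((d : ℝ) + 3) -
        ((4 * Z + 2 * V + c) / 4 + (a + (c : ℝ) / 4) + (b + 1) * (r₀ ^ 2 - (a + (c : ℝ) / 4))))) := by
    apply Continuous.tendsto
    fun_prop
  have hpos : 0 < r₀ * ((d : ℝ) + 3) -
        ((4 * Z + 2 * V + c) / 4 + (a + (c : ℝ) / 4) + (b + 1) * (r₀ ^ 2 - (a + (c : ℝ) / 4))) := by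
    rw [hr₀2, hr₀]
    have e1 : (a + (c : ℝ) / 4) - (a + (c : ℝ) / 4) = 0 := sub_self _
    rw [e1, mul_zero, add_zero]
    linarith
  have hev := hcont.eventually (Ioi_mem_nhds hpos)
  obtain ⟨ε, hε, hball⟩ := Metric.eventually_nhds_iff.1 hev
  obtain ⟨s, hs, hs1, hs2⟩ := exists_irrational_btwn (show r₀ < r₀ + ε by linarith)
  have h2 := hball (y := s) (by rw [Real.dist_eq, abs_of_pos (by linarith)]; linarith)
  have h2' : 0 < s * ((d : ℝ) + 3) -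
      ((4 * Z + 2 * V + c) / 4 + (a + (c : ℝ) / 4) + (b + 1) * (s ^ 2 - (a + (c : ℝ) / 4))) := h2
  refine Sur_plane_irr' hT (by linarith) hs ?_ (by linarith)
  rw [← hr₀2]
  exact pow_le_pow_left₀ (by linarith) hs1.le 2

/-- **independence**, the sharper window -/
theorem leafS_Q {a c b V n d : ℕ} {v : Fin c → ℕ} (h : Sur v (QI c b V)) {u : Fin a → ℕ}
    (hu : ∀ i, u i = b ∨ u i = b + 1) (hb1 : c * b ≤ 2 * V + c) (hn : n = 4 * a + c) (hn37 : 37 ≤ n)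
    (hQ : 4 * ((∑ i, u i : ℕ) : ℝ) + 2 * V + c + n / 2 + 2 * √(n : ℝ) / 3 + 1 / 2 <
      2 * √(n : ℝ) * (d + 3 / 2)) :
    Sur (Sum.elim u v) (TZ d) := by
  have hT := Sur_tri h hu hb1
  obtain ⟨Z, hZ⟩ : ∃ Z, Z = ∑ i, u i := ⟨_, rfl⟩
  rw [← hZ] at hT hQ
  have hn4 : (n : ℝ) = 4 * a + c := by rw [hn]; push_cast; ring
  have hnR : (37 : ℝ) ≤ n := by exact_mod_cast hn37
  obtain ⟨s, hsdef⟩ : ∃ s, s = √(n : ℝ) := ⟨_, rfl⟩
  have hs : s * s = n := by rw [hsdef]; exact Real.mul_self_sqrt (by linarith)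
  have hs3 : 6.08 ≤ s := by rw [hsdef]; exact Real.le_sqrt_of_sq_le (by norm_num; linarith)
  have hs0 : 0 < s := by linarith
  rw [← hsdef] at hQ
  obtain ⟨W, hW⟩ : ∃ W : ℝ, W = 4 * Z + 2 * V + c + n / 2 + 2 * s / 3 + 1 / 2 := ⟨_, rfl⟩
  rw [← hW] at hQ
  -- an irrational slope slightly smaller than `3 s / 2`
  obtain ⟨η, hη0, hη⟩ : ∃ η : ℝ, 0 < η ∧ η ≤ 0.1 ∧ W + η * (4 * (d + 3 / 2) / 3) ≤ 2 * s * (d + 3 / 2) := by
    have hd : 0 < 4 * ((d : ℝ) + 3 / 2) / 3 := by positivity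
    refine ⟨min 0.1 ((2 * s * (d + 3 / 2) - W) / (4 * (d + 3 / 2) / 3)), ?_, min_le_left _ _, ?_⟩
    · exact lt_min (by norm_num) (div_pos (by linarith) hd)
    · have h2 := mul_le_mul_of_nonneg_right (min_le_right (0.1 : ℝ)
        ((2 * s * (d + 3 / 2) - W) / (4 * (d + 3 / 2) / 3))) hd.le
      rw [div_mul_cancel₀ _ hd.ne'] at h2
      linarith
  obtain ⟨K, hKirr, hK1, hK2⟩ := exists_irrational_btwn (show 3 / 2 * s - η < 3 / 2 * s by linarith)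
  have hK9 : 9 ≤ K := by linarith [hη.1]
  have hKs : K ^ 2 ≤ 9 / 4 * n := by
    have : K ^ 2 ≤ (3 / 2 * s) ^ 2 := pow_le_pow_left₀ (by linarith) hK2.le 2
    have e : (3 / 2 * s) ^ 2 = 9 / 4 * n := by rw [mul_pow, sq s, hs]; ring
    linarith
  have hmain : W ≤ 4 * (K / 3 * ((d : ℝ) + 3 / 2)) := by
    have h3 : (3 / 2 * s - η) / 3 * ((d : ℝ) + 3 / 2) ≤ K / 3 * (d + 3 / 2) :=
      mul_le_mul_of_nonneg_right (by linarith) (by positivity)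
    have h4 : (3 / 2 * s - η) / 3 * ((d : ℝ) + 3 / 2) =
        s / 2 * (d + 3 / 2) - η * ((d + 3 / 2) / 3) := by ring
    linarith [hη.2]
  refine Pool.Agent.TH641.NW.Sur_pl Pool.Agent.TH641.NW.keyS hK9 hKirr (n' := (n : ℝ) / 4)
    (Z' := (4 * Z + 2 * V + c - 3) / 4) ?_ ?_
  · intro x j hj
    have hj0 : (0 : ℝ) ≤ j := Nat.cast_nonneg j
    have hY : 0 ≤ 3 * (d : ℝ) - K * j := by
      have h3 : K * j ≤ 3 / 2 * s * j := mul_le_mul_of_nonneg_right hK2.le hj0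
      have h4 : s * (3 / 2 * s * j) < s * (3 * d) := by
        have e : s * (3 / 2 * s * (j : ℝ)) = 3 / 2 * (n * j) := by rw [← hs]; ring
        rw [e]
        have h6 : 9 / 2 * s ≤ 3 / 4 * n + s + 1 := by rw [← hs]; nlinarith
        linarith
      have h5 := lt_of_mul_lt_mul_left h4 hs0.le
      linarith
    obtain ⟨B, hB1, hB2⟩ := Pool.Agent.TH641.NW.low_row2 (x := x) hK9 hY
    refine ⟨B, hB1, ?_⟩
    rw [Pool.Agent.TH641.NW.ell_row] at hB2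
    have h7 : K ^ 2 / 9 * j ≤ n / 4 * j := mul_le_mul_of_nonneg_right (by linarith) hj0
    have h8 : ((4 * (Z : ℤ) + 2 * V + c - 4 - n * j : ℤ) : ℝ) < ((4 * (B.card : ℤ) : ℤ) : ℝ) := by
      push_cast
      linarith
    have h9 : 4 * (Z : ℤ) + 2 * V + c - 4 - n * j < 4 * (B.card : ℤ) := by exact_mod_cast h8
    have h10 : 4 * (Z : ℤ) + 2 * V + c - 3 - n * j ≤ 4 * (B.card : ℤ) := by omega
    have h11 : 4 * (Z : ℝ) + 2 * V + c - 3 - n * j ≤ 4 * (B.card : ℝ) := by exact_mod_cast h10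
    linarith
  · refine hT.mono ?_
    rintro ⟨p, q⟩ ⟨h1, h2, h3, h4⟩
    simp only at h1 h2 h3 h4
    refine ⟨h1, h2, ?_⟩
    simp only
    have h5 : 4 * (p : ℝ) + (4 * a + c) * q + 4 ≤ 4 * Z + 2 * V + c := by exact_mod_cast h4
    rw [hn4]
    linarith

end Pool.Agent.X167.NU
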