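import Pool.Agent.X167.NU.Chk

/-! The checker: soundness for one number of points, and the run for `37 ≤ n < 226`, `n ≠ 69`. -/

namespace Pool.Agent.X167.NU

/-- the conclusion for one number of points -/
def Good (n a c : ℕ) : Prop :=
  ∀ (m τ b ε cf t : ℕ) (X : ℝ), (n : ℝ) - 6 * √(n : ℝ) + 10 ≤ m → τ ≤ 2 * a →
    ((b = 2 * m ∧ ε = 1 ∧ cf = c) ∨ (b = 2 * m + 1 ∧ ε = 0 ∧ cf = 0)) →
    |X| ≤ 2 * √(n : ℝ) / 3 + 9 / 4 →
    2 * ((b : ℝ) + 1) * X - 1 - 4 * ((τ : ℝ) - a) * ε + cf ≤ 8 * t →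
    ∃ x0 x1 x2, x0 + x1 + x2 = a ∧ x1 + 2 * x2 = τ ∧ Hyp a b c n t x0 x1 x2 X

theorem cast_sub_le (A B : ℕ) {y : ℝ} (hy : 0 ≤ y) (h : (A : ℝ) - B ≤ y) : ((A - B : ℕ) : ℝ) ≤ y := by
  rcases le_total A B with h1 | h1
  · rw [Nat.sub_eq_zero_of_le h1]
    push_cast
    exact hy
  · rw [Nat.cast_sub h1]
    exact h

theorem chk_sound {n a c sL : ℕ} (h : chk n a c sL = true) : n = 4 * a + c ∧ Good n a c := by
  unfold chk at h
  simp only [Bool.and_eq_true, Nat.beq_eq, Nat.ble_eq, List.all_eq_true, List.mem_range] at h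
  obtain ⟨⟨⟨⟨h1, h2⟩, h3⟩, h4⟩, h5⟩ := h
  refine ⟨h1, ?_⟩
  intro m τ b ε cf t X hm hτ hb hX hD
  obtain ⟨s, hs⟩ : ∃ s : ℝ, s = √(n : ℝ) := ⟨_, rfl⟩
  have hn0 : (0 : ℝ) ≤ n := Nat.cast_nonneg n
  have hss : s ^ 2 = n := by rw [hs]; exact Real.sq_sqrt hn0
  have hs0 : 0 ≤ s := by rw [hs]; exact Real.sqrt_nonneg _
  have hL : (sL : ℝ) ≤ 10000 * s := by
    have e1 : ((sL : ℝ)) ^ 2 ≤ (10000 * s) ^ 2 := by
      have : ((sL * sL : ℕ) : ℝ) ≤ ((n * 100000000 : ℕ) : ℝ) := by exact_mod_cast h2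
      push_cast at this
      rw [mul_pow, hss]
      nlinarith
    exact le_of_sq_le_sq e1 (by positivity)
  have hU : 10000 * s ≤ sL + 1 := by
    have e1 : (10000 * s) ^ 2 ≤ ((sL : ℝ) + 1) ^ 2 := by
      have : ((n * 100000000 : ℕ) : ℝ) ≤ (((sL + 1) * (sL + 1) : ℕ) : ℝ) := by exact_mod_cast h3
      push_cast at this
      rw [mul_pow, hss]
      nlinarith
    exact le_of_sq_le_sq e1 (by positivity)
  rw [← hs] at hm hX
  obtain ⟨hX1, hX2⟩ := abs_le.1 hX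
  have hRE : ((max (36 * sL) (60000 * n - 8 * (sL + 1) - 540000 - 120000 * (n % 4)) : ℕ) : ℝ) ≤
      120000 * RE n := by
    rw [Nat.cast_max]
    have hnn : 0 ≤ 120000 * RE n := by
      have : 3 * √(n : ℝ) ≤ RE n := le_max_left _ _
      have := Real.sqrt_nonneg (n : ℝ)
      linarith
    refine max_le ?_ ?_
    · have : 3 * √(n : ℝ) ≤ RE n := le_max_left _ _
      rw [← hs] at this
      push_cast
      linarith
    · have h6 : (n : ℝ) / 2 - 2 * √(n : ℝ) / 3 - 9 / 2 - ((n % 4 : ℕ) : ℝ) ≤ RE n := le_max_right _ _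
      rw [← hs] at h6
      rw [Nat.sub_sub, Nat.sub_sub]
      refine cast_sub_le _ _ hnn ?_
      push_cast at h6 ⊢
      linarith
  have hRS : ((max (36 * sL) (60000 * n - 8 * (sL + 1) - 60000) : ℕ) : ℝ) ≤ 120000 * RS n := by
    rw [Nat.cast_max]
    have hnn : 0 ≤ 120000 * RS n := by
      have : 3 * √(n : ℝ) ≤ RS n := le_max_left _ _
      have := Real.sqrt_nonneg (n : ℝ)
      linarith
    refine max_le ?_ ?_
    · have : 3 * √(n : ℝ) ≤ RS n := le_max_left _ _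
      rw [← hs] at this
      push_cast
      linarith
    · have h6 : (n : ℝ) / 2 - 2 * √(n : ℝ) / 3 - 1 / 2 ≤ RS n := le_max_right _ _
      rw [← hs] at h6
      rw [Nat.sub_sub]
      refine cast_sub_le _ _ hnn ?_
      push_cast at h6 ⊢
      linarith
  have hm0 : n + 10 - 6 * (sL + 1) / 10000 ≤ m := by
    have e1 : (((n + 10) * 10000 : ℕ) : ℝ) ≤ ((10000 * m + 6 * (sL + 1) : ℕ) : ℝ) := by
      push_cast
      linarith
    have e2 : (n + 10) * 10000 ≤ 10000 * m + 6 * (sL + 1) := by exact_mod_cast e1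
    omega
  have hX3 : 120000 * X ≤ ((8 * (sL + 1) + 270000 : ℕ) : ℝ) := by
    push_cast
    linarith
  have hlo : ((SH - (8 * (sL + 1) + 270000) : ℕ) : ℝ) ≤ 120000 * X + 2880000 := by
    rw [Nat.cast_sub h4]
    push_cast
    linarith
  have hr := h5 τ (by omega)
  rcases hb with ⟨rfl, rfl, rfl⟩ | ⟨rfl, rfl, rfl⟩
  · exact run_sound hRE hRS (by omega) (by omega) hX3 hD 8 _ hlo hr.1
  · exact run_sound hRE hRS (by omega) (by omega) hX3 hD 8 _ hlo hr.2

theorem chkR_sound {n0 k : ℕ} (h : chkR n0 k = true) {n : ℕ} (h1 : n0 ≤ n) (h2 : n < n0 + k) (h69 : n ≠ 69) :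
    ∃ a c, (c = if n % 4 = 1 then 5 else n % 4) ∧ n = 4 * a + c ∧ Good n a c := by
  unfold chkR at h
  simp only [List.all_eq_true, List.mem_range, Bool.or_eq_true, Nat.beq_eq] at h
  have h3 := h (n - n0) (by omega)
  rw [Nat.add_sub_cancel' h1] at h3
  rcases h3 with h3 | h3
  · exact absurd h3 h69
  · obtain ⟨g1, g2⟩ := chk_sound h3
    refine ⟨_, _, ?_, g1, g2⟩
    rfl

set_option maxRecDepth 100000 in
theorem chk_a : chkR 37 100 = true := by decide +kernel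

set_option maxRecDepth 100000 in
theorem chk_b : chkR 137 55 = true := by decide +kernel

set_option maxRecDepth 100000 in
theorem chk_c : chkR 192 40 = true := by decide +kernel

end Pool.Agent.X167.NU
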