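import Pool.Agent.X167.NU.Ana
import Pool.Agent.X167.NU.Chk69
import Pool.Agent.X167.NU.Mix
import Pool.Agent.TH2.NU.Near4
import Pool.Agent.TH941.NU.Out

/-! Multiplicities `m` and `m + 1` at `n ≥ 37` points: every degree. -/

namespace Pool.Agent.X167.NU

open Finset Pool.Agent.TH176.Nag Pool.Agent.TH603.Sur Pool.Agent.TH763.DB Pool.Agent.TH2.NU Module
  Pool.Agent.TH641.UM Pool.Agent.TH760.EN Pool.Agent.H932R3

theorem good {n : ℕ} (hn : 37 ≤ n) (h69 : n ≠ 69) :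
    ∃ a c, (c = if n % 4 = 1 then 5 else n % 4) ∧ n = 4 * a + c ∧ Good n a c := by
  rcases lt_or_ge n 137 with h | h
  · exact chkR_sound chk_a hn (by omega) h69
  rcases lt_or_ge n 192 with h' | h'
  · exact chkR_sound chk_b h (by omega) h69
  rcases lt_or_ge n 226 with h'' | h''
  · exact chkR_sound chk_c h' (by omega) h69
  · obtain ⟨c, hc⟩ : ∃ c, c = if n % 4 = 1 then 5 else n % 4 := ⟨_, rfl⟩
    have hn4 : n = 4 * ((n - c) / 4) + c ∧ c ≤ 5 := by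
      rw [hc]
      split_ifs <;> omega
    exact ⟨(n - c) / 4, c, hc, hn4.1, good_large hn4.1 hn4.2 h''⟩

theorem HEHS {n c : ℕ} (hc : c = if n % 4 = 1 then 5 else n % 4) : HE c ∧ HS c := by
  have h3 : HE 3 := Pool.Agent.TH641.EN.HE_three
  rcases (by omega : n % 4 = 0 ∨ n % 4 = 1 ∨ n % 4 = 2 ∨ n % 4 = 3) with h | h | h | h
  · have : c = 0 := by rw [hc, if_neg (by omega)]; exact h
    subst this
    exact ⟨he0, hs0⟩
  · have : c = 5 := by rw [hc, if_pos h]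
    subst this
    exact ⟨Pool.Agent.TH938.Q5.he5 he2 h3, Pool.Agent.TH938.Q5.hs5 he2 h3⟩
  · have : c = 2 := by rw [hc, if_neg (by omega)]; exact h
    subst this
    exact ⟨he2, hs2⟩
  · have : c = 3 := by rw [hc, if_neg (by omega)]; exact h
    subst this
    exact ⟨h3, hs3_of h3⟩

/-- the multiset of the clusters and of the remaining points `VV` -/
def WM (b : ℕ) (VV : Multiset ℕ) (x0 x1 x2 : ℕ) : Multiset ℕ :=
  x0 • q4 b + (x2 • q4 (b + 1) + (x1 • r4 (b + 1) + VV))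

theorem condM_WM (b : ℕ) (VV : Multiset ℕ) (x0 x1 x2 : ℕ) : TH2.NU.condM (WM b VV x0 x1 x2) =
    x0 * ((b + 1).choose 2 + (b + 1) / 2) + x1 * ((b + 1).choose 2 + (b + 1)) +
      x2 * ((b + 1).choose 2 + (b + 1) + (b + 2) / 2) + TH2.NU.condM VV := by
  unfold WM
  rw [condM_add, condM_add, condM_add, condM_smul, condM_smul, condM_smul, condM_q4,
    condM_q4, condM_r4 (by omega), choose_succ]
  ring

theorem ms_W {n m b c V x0 x1 x2 : ℕ} {VV : Multiset ℕ} {w : Fin n → ℕ}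
    (hw : ∀ i, w i = m ∨ w i = m + 1) (hb : b = 2 * m ∨ b = 2 * m + 1)
    (hc : VV.card = c) (hV : VV.sum = V) (hVV : ∀ x ∈ VV, x = m ∨ x = m + 1)
    (hn : n = 4 * (x0 + x1 + x2) + c)
    (hW : ∑ i, w i = x0 * (2 * b) + x1 * (2 * b + 1) + x2 * (2 * b + 2) + V) :
    ms w = WM b VV x0 x1 x2 := by
  have e1 : ms (Sum.elim (fun p : Fin x0 × (Fin 2 × Fin 2) => qv b p.2)
      (Sum.elim (fun p : Fin x2 × (Fin 2 × Fin 2) => qv (b + 1) p.2)
        (Sum.elim (fun p : Fin x1 × (Fin 2 × Fin 2) => rv (b + 1) p.2)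
          (fun i : Fin VV.toList.length => VV.toList.get i)))) =
      WM b VV x0 x1 x2 := by
    rw [ms_sum, ms_sum, ms_sum, ms_prod, ms_prod, ms_prod, ms_toList]
    rfl
  rw [← e1]
  have hl : VV.toList.length = c := by rw [Multiset.length_toList, hc]
  have hs : (∑ i : Fin VV.toList.length, VV.toList.get i) = V := by
    rw [← ms_sum_val, ms_toList, hV]
  refine ms_eq hw ?_ ?_ ?_
  · rintro (⟨-, ⟨a, c⟩⟩ | ⟨-, ⟨a, c⟩⟩ | ⟨-, ⟨a, c⟩⟩ | i)
    · simp only [Sum.elim_inl, qv]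
      have := a.2
      omega
    · simp only [Sum.elim_inl, Sum.elim_inr, qv]
      have := a.2
      omega
    · simp only [Sum.elim_inl, Sum.elim_inr, rv]
      have := a.2
      have := c.2
      omega
    · simp only [Sum.elim_inr]
      exact hVV _ (Multiset.mem_toList.1 (List.get_mem _ _))
  · rw [Fintype.card_sum, Fintype.card_sum, Fintype.card_sum]
    simp only [Fintype.card_prod, Fintype.card_fin]
    omega
  · rw [Fintype.sum_sum_type, Fintype.sum_sum_type, Fintype.sum_sum_type]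
    simp only [Sum.elim_inl, Sum.elim_inr]
    rw [sum_prod_val, sum_prod_val, sum_prod_val, sum_qv_val, sum_rv_val, sum_qv_val, hW, hs]
    ring

/-- the number of missing conditions from the degree -/
theorem Dlow {a b c V n d τ ε t x0 x1 x2 : ℕ} {VV : Multiset ℕ} {X cf : ℝ} (hn : n = 4 * a + c)
    (hn0 : 0 < n)
    (hx : x0 + x1 + x2 = a) (hτ : x1 + 2 * x2 = τ) (hε : 2 * ((b + 2) / 2) = b + 1 + ε)
    (hX : √(n : ℝ) * (2 * d + 3) = X + n + 2 * (2 * a * b + τ + V))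
    (hcf : cf + 8 * (TH2.NU.condM VV : ℝ) = c * (b + 1) ^ 2 + 2 * (b + 1) * (2 * V - c * b))
    (ht : (d + 2).choose 2 ≤ x0 * ((b + 1).choose 2 + (b + 1) / 2) + x1 * ((b + 1).choose 2 + (b + 1)) +
      x2 * ((b + 1).choose 2 + (b + 1) + (b + 2) / 2) + TH2.NU.condM VV + t) :
    2 * ((b : ℝ) + 1) * X - 1 - 4 * ((τ : ℝ) - a) * ε + cf ≤ 8 * t := by
  obtain ⟨k0, hk0⟩ : ∃ k0, k0 = (b + 1) / 2 := ⟨_, rfl⟩
  obtain ⟨k2, hk2⟩ : ∃ k2, k2 = (b + 2) / 2 := ⟨_, rfl⟩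
  have hk : k0 + k2 = b + 1 := by omega
  obtain ⟨T, hT⟩ : ∃ T, T = (b + 1).choose 2 := ⟨_, rfl⟩
  obtain ⟨Te, hTe⟩ : ∃ Te, Te = TH2.NU.condM VV := ⟨_, rfl⟩
  obtain ⟨C, hC⟩ : ∃ C, C = (d + 2).choose 2 := ⟨_, rfl⟩
  have t1 : 2 * T = b * (b + 1) := by rw [hT]; exact two_choose b
  have t3 : 2 * C = (d + 1) * (d + 2) := by rw [hC]; exact two_choose' d
  rw [← hk0, ← hk2, ← hT, ← hTe, ← hC] at ht
  rw [← hk2] at hε
  rw [← hTe] at hcf
  have t1' : 2 * (T : ℝ) = b * (b + 1) := by exact_mod_cast t1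
  have t3' : 2 * (C : ℝ) = (d + 1) * (d + 2) := by exact_mod_cast t3
  have ht' : (C : ℝ) ≤ x0 * (T + k0) + x1 * (T + (b + 1)) + x2 * (T + (b + 1) + k2) + Te + t := by
    exact_mod_cast ht
  have hkR : (k0 : ℝ) = b + 1 - k2 := by
    have : (k0 : ℝ) + k2 = b + 1 := by exact_mod_cast hk
    linarith
  have hεR : 2 * (k2 : ℝ) = b + 1 + ε := by exact_mod_cast hε
  have hxR : (x0 : ℝ) = a - x1 - x2 := by
    have : (x0 : ℝ) + x1 + x2 = a := by exact_mod_cast hx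
    linarith
  have hτR : (x1 : ℝ) = τ - 2 * x2 := by
    have : (x1 : ℝ) + 2 * x2 = τ := by exact_mod_cast hτ
    linarith
  have hnR : (n : ℝ) = 4 * a + c := by rw [hn]; push_cast; ring
  have hnpos : (0 : ℝ) < n := by exact_mod_cast hn0
  have hss : √(n : ℝ) ^ 2 = n := Real.sq_sqrt hnpos.le
  -- the conditions
  have h1 : (C : ℝ) ≤ a * (T + (b + 1)) + (τ - a) * k2 + Te + t := by
    refine ht'.trans (le_of_eq ?_)
    rw [hkR, hxR, hτR]
    ring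
  obtain ⟨z, hz⟩ : ∃ z : ℝ, z = X + 2 * τ + (2 * V - c * b) := ⟨_, rfl⟩
  have h2 : (n : ℝ) * (2 * d + 3) ^ 2 = (n * (b + 1) + z) ^ 2 := by
    have e1 : (n : ℝ) * (2 * d + 3) ^ 2 = (√(n : ℝ) * (2 * d + 3)) ^ 2 := by rw [mul_pow, hss]
    rw [e1, hX, hz]
    congr 1
    rw [hnR]
    ring
  have h3 : (n : ℝ) * (n * (b + 1) ^ 2 + 2 * (b + 1) * z) ≤ n * (2 * d + 3) ^ 2 := by
    rw [h2]
    nlinarith [sq_nonneg z]
  have h4 : (n : ℝ) * (b + 1) ^ 2 + 2 * (b + 1) * z ≤ (2 * d + 3) ^ 2 := le_of_mul_le_mul_left h3 hnpos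
  have h5 : 8 * (C : ℝ) = (2 * d + 3) ^ 2 - 1 := by
    have : 8 * (C : ℝ) = 4 * (2 * C) := by ring
    rw [this, t3']
    ring
  have h6 : 8 * (a * ((T : ℝ) + (b + 1)) + (τ - a) * k2 + Te) =
      4 * a * (b * (b + 1) + 2 * (b + 1)) + 4 * (τ - a) * (b + 1 + ε) + 8 * Te := by
    rw [← t1', ← hεR]
    ring
  have h7 : (n : ℝ) * (b + 1) ^ 2 + 2 * (b + 1) * z - 1 -
      (4 * a * (b * (b + 1) + 2 * (b + 1)) + 4 * (τ - a) * (b + 1 + ε) + 8 * Te) =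
      2 * ((b : ℝ) + 1) * X - 1 - 4 * ((τ : ℝ) - a) * ε + cf := by
    have h8 : cf = c * (b + 1) ^ 2 + 2 * (b + 1) * (2 * V - c * b) - 8 * Te := by linarith
    rw [h8, hz, hnR]
    ring
  linarith

/-- the data for the remaining points -/
structure Rem (m b c V : ℕ) (VV : Multiset ℕ) : Prop where
  card : VV.card = c
  sum : VV.sum = V
  mem : ∀ x ∈ VV, x = m ∨ x = m + 1
  E : EmpM VV (QE c V)
  S : SurM VV (QI c b V)
  b1 : c * b ≤ 2 * V + c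

theorem rem_c {m b c e : ℕ} (h : HE c ∧ HS c) (he : e = m ∨ e = m + 1) (hb1 : b ≤ 2 * e + 1)
    (hb2 : 2 * e ≤ b + 1) : Rem m b c (c * e) (c • {e}) where
  card := card_smul1 c e
  sum := sum_smul1 c e
  mem := by
    intro x hx
    have := Multiset.mem_of_mem_nsmul hx
    have h1 : x = e := by simpa using this
    rw [h1]
    exact he
  E := EmpM_c h.1 e
  S := SurM_c h.2 hb2
  b1 := by
    calc c * b ≤ c * (2 * e + 1) := Nat.mul_le_mul_left _ hb1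
      _ = _ := by ring

theorem rem_mix {m b : ℕ} (hb : b = 2 * m ∨ b = 2 * m + 1) : Rem m b 5 (5 * m + 1) (VM m) where
  card := card_VM m
  sum := by
    unfold VM
    rw [Multiset.sum_add, sum_smul1, sum_smul1]
    ring
  mem := by
    intro x hx
    unfold VM at hx
    rw [Multiset.mem_add] at hx
    rcases hx with hx | hx
    · left
      have := Multiset.mem_of_mem_nsmul hx
      simpa using this
    · right
      have := Multiset.mem_of_mem_nsmul hx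
      simpa using this
  E := EmpM_mix m
  S := SurM_mix (by omega)
  b1 := by omega

/-- the degree is large -/
theorem deg_large {n m d : ℕ} {W X : ℝ} (hn : 37 ≤ n) (hm : (n : ℝ) - 6 * √(n : ℝ) + 10 ≤ m)
    (hX : |X| ≤ 2 * √(n : ℝ) / 3 + 9 / 4) (hW : (n : ℝ) * m ≤ W)
    (hX' : √(n : ℝ) * (2 * d + 3) = X + n + 2 * W) : √(n : ℝ) * (n + 10) ≤ 16 * d := by
  obtain ⟨s, hs⟩ : ∃ s : ℝ, s = √(n : ℝ) := ⟨_, rfl⟩
  have hnR : (37 : ℝ) ≤ n := by exact_mod_cast hn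
  have hss : s * s = n := by rw [hs]; exact Real.mul_self_sqrt (by linarith)
  have hs6 : 6 ≤ s := by rw [hs]; exact Real.le_sqrt_of_sq_le (by norm_num; linarith)
  rw [← hs] at hX hX' hm ⊢
  have h1 : (n : ℝ) * (n - 6 * s + 10) ≤ n * m := mul_le_mul_of_nonneg_left hm (by linarith)
  have h2 := (abs_le.1 hX).1
  have h3 : s * (s * (n + 10)) ≤ s * (16 * d) := by
    have e1 : s * (s * (n + 10)) = n * (n + 10) := by rw [← hss]; ring
    rw [e1]
    have h4 : s * (2 * d + 3) ≥ n + 2 * (n * (n - 6 * s + 10)) - (2 * s / 3 + 9 / 4) := by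
      rw [hX']; linarith
    have h5 : 0 ≤ n * (15 * (n : ℝ) - 96 * s + 158) - 24 * s - 8 * (2 * s / 3 + 9 / 4) := by
      have h6 : 60 ≤ 15 * (n : ℝ) - 96 * s + 158 := by nlinarith
      have h7 : (n : ℝ) * 60 ≤ n * (15 * (n : ℝ) - 96 * s + 158) :=
        mul_le_mul_of_nonneg_left h6 (by linarith)
      nlinarith
    nlinarith
  exact le_of_mul_le_mul_left h3 (by linarith)

/-- from the inequalities to the sign theorem -/
theorem near_fin {n m a b c V τ t d x0 x1 x2 : ℕ} {VV : Multiset ℕ} {X : ℝ} (hr : Rem m b c V VV)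
    (hb : b = 2 * m ∨ b = 2 * m + 1) {w : Fin n → ℕ} (hw : ∀ i, w i = m ∨ w i = m + 1)
    (hn : n = 4 * a + c) (h37 : 37 ≤ n) (hd : √(n : ℝ) * (n + 10) ≤ 16 * d)
    (hsum : ∑ i, w i = 2 * a * b + τ + V)
    (hX : √(n : ℝ) * (2 * d + 3) = X + n + 2 * (2 * a * b + τ + V))
    (ht : t = (d + 2).choose 2 - cond w) (hx : x0 + x1 + x2 = a) (hτ : x1 + 2 * x2 = τ)
    (hH : Hyp a b c n t x0 x1 x2 X) :
    ((d + 2).choose 2 ≤ cond w → Emp w (TZ d)) ∧ (cond w ≤ (d + 2).choose 2 → Sur w (TZ d)) := by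
  have hms : ms w = WM b VV x0 x1 x2 := ms_W hw hb hr.card hr.sum hr.mem (by rw [hx]; exact hn) (by
      rw [hsum, ← hx, ← hτ]; ring)
  have hcd : (d + 2).choose 2 ≤ x0 * ((b + 1).choose 2 + (b + 1) / 2) +
        x1 * ((b + 1).choose 2 + (b + 1)) +
        x2 * ((b + 1).choose 2 + (b + 1) + (b + 2) / 2) + TH2.NU.condM VV + t := by
    rw [← condM_WM, ← hms, ← cond_condM, ht]
    exact le_add_tsub
  obtain ⟨h11, h00, h10, h01⟩ := hH
  have hDL := crit (t := t) hr.card hr.E hr.S hx hn h37 hr.b1 hd (X := X) (by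
      rw [hX]
      have e1 : (a : ℝ) = x0 + x1 + x2 := by rw [← hx]; push_cast; ring
      have e2 : (τ : ℝ) = x1 + 2 * x2 := by rw [← hτ]; push_cast; ring
      rw [e1, e2]
      ring) (by rw [card_TF]; exact hcd) h11 h00 h10 h01
  have hsg := sgn_of_DL (M := WM b VV x0 x1 x2) hDL (by
    rw [card_TF, ← hms, ← cond_condM]
    exact ht)
  rw [card_TF, coe_TF] at hsg
  exact Sgn_of_ms hms hsg

/-- the inequality for the number of missing conditions -/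
theorem near_D {n m a b c V τ ε t d : ℕ} {VV : Multiset ℕ} {X cf : ℝ} (hr : Rem m b c V VV)
    (hb : b = 2 * m ∨ b = 2 * m + 1) {w : Fin n → ℕ} (hw : ∀ i, w i = m ∨ w i = m + 1)
    (hn : n = 4 * a + c) (h37 : 37 ≤ n)
    (hsum : ∑ i, w i = 2 * a * b + τ + V) (hτ2 : τ ≤ 2 * a) (hε : 2 * ((b + 2) / 2) = b + 1 + ε)
    (hX : √(n : ℝ) * (2 * d + 3) = X + n + 2 * (2 * a * b + τ + V))
    (hcf : cf + 8 * (TH2.NU.condM VV : ℝ) = c * (b + 1) ^ 2 + 2 * (b + 1) * (2 * V - c * b))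
    (ht : t = (d + 2).choose 2 - cond w) :
    2 * ((b : ℝ) + 1) * X - 1 - 4 * ((τ : ℝ) - a) * ε + cf ≤ 8 * t := by
  obtain ⟨x1, hx1⟩ : ∃ x1, x1 = τ % 2 := ⟨_, rfl⟩
  obtain ⟨x2, hx2⟩ : ∃ x2, x2 = τ / 2 := ⟨_, rfl⟩
  obtain ⟨x0, hx0⟩ : ∃ x0, x0 = a - x1 - x2 := ⟨_, rfl⟩
  have hx : x0 + x1 + x2 = a := by omega
  have hτ : x1 + 2 * x2 = τ := by omega
  have hms : ms w = WM b VV x0 x1 x2 := ms_W hw hb hr.card hr.sum hr.mem (by rw [hx]; exact hn) (by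
      rw [hsum, ← hx, ← hτ]; ring)
  refine Dlow hn (by omega) hx hτ hε hX hcf ?_
  rw [← condM_WM, ← hms, ← cond_condM]
  omega

/-- **the critical degrees**, `n ≠ 69` -/
theorem near_crit {n m : ℕ} (hn : 37 ≤ n) (h69 : n ≠ 69) {w : Fin n → ℕ}
    (hw : ∀ i, w i = m ∨ w i = m + 1) (hm : (n : ℝ) - 6 * √(n : ℝ) + 10 ≤ m) {d : ℕ}
    (hcrit : |√(n : ℝ) * (2 * d + 3) - (n + 2 * (∑ i, (w i : ℝ)))| ≤ 2 * √(n : ℝ) / 3 + 9 / 4) :
    ((d + 2).choose 2 ≤ cond w → Emp w (TZ d)) ∧ (cond w ≤ (d + 2).choose 2 → Sur w (TZ d)) := by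
  obtain ⟨a, c, hc, hn4, hgood⟩ := good hn h69
  have hES := HEHS hc
  have hc5 : c ≤ 5 := by rw [hc]; split_ifs <;> omega
  have ha8 : 8 ≤ a := by omega
  have hlow : n * m ≤ ∑ i, w i := by
    have h1 : ∑ _i : Fin n, m ≤ ∑ i, w i := sum_le_sum fun i _ => by
      rcases hw i with h | h <;> omega
    simpa using h1
  have hup : ∑ i, w i ≤ n * m + n := by
    have h1 : ∑ i, w i ≤ ∑ _i : Fin n, (m + 1) := sum_le_sum fun i _ => by
      rcases hw i with h | h <;> omega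
    simp only [sum_const, card_univ, Fintype.card_fin, smul_eq_mul] at h1
    linarith
  obtain ⟨u, hu⟩ := Nat.exists_eq_add_of_le hlow
  -- the three types
  obtain ⟨b, e, τ, ε, cf, hb, he, hb1, hb2, hτ, htype, hε, hcf, hsum⟩ : ∃ b e τ ε cf : ℕ,
      (b = 2 * m ∨ b = 2 * m + 1) ∧ (e = m ∨ e = m + 1) ∧ b ≤ 2 * e + 1 ∧ 2 * e ≤ b + 1 ∧ τ ≤ 2 * a ∧
      ((b = 2 * m ∧ ε = 1 ∧ cf = c) ∨ (b = 2 * m + 1 ∧ ε = 0 ∧ cf = 0)) ∧
      2 * ((b + 2) / 2) = b + 1 + ε ∧ (cf : ℝ) = c * (1 - (2 * e - b) ^ 2) ∧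
      ∑ i, w i = 2 * a * b + τ + c * e := by
    rcases le_or_gt u (2 * a) with h | h
    · refine ⟨2 * m, m, u, 1, c, Or.inl rfl, Or.inl rfl, by omega, by omega, h,
        Or.inl ⟨rfl, rfl, rfl⟩, by omega, ?_, ?_⟩
      · push_cast; ring
      · rw [hu, hn4]; ring
    rcases le_or_gt u (4 * a) with h' | h'
    · refine ⟨2 * m + 1, m, u - 2 * a, 0, 0, Or.inr rfl, Or.inl rfl, by omega, by omega, by omega,
        Or.inr ⟨rfl, rfl, rfl⟩, by omega, ?_, ?_⟩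
      · push_cast; ring
      · obtain ⟨v, rfl⟩ := Nat.exists_eq_add_of_le h.le
        rw [hu, hn4, Nat.add_sub_cancel_left]; ring
    · obtain ⟨v, rfl⟩ := Nat.exists_eq_add_of_le (show 2 * a + c ≤ u by omega)
      refine ⟨2 * m + 1, m + 1, v, 0, 0, Or.inr rfl, Or.inr rfl, by omega, by omega, by omega,
        Or.inr ⟨rfl, rfl, rfl⟩, by omega, ?_, ?_⟩
      · push_cast; ring
      · rw [hu, hn4]; ring
  have hrem := rem_c (m := m) (b := b) hES he hb1 hb2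
  obtain ⟨X, hX⟩ : ∃ X : ℝ, X = √(n : ℝ) * (2 * d + 3) - (n + 2 * (∑ i, (w i : ℝ))) := ⟨_, rfl⟩
  have hsumR : (∑ i, (w i : ℝ)) = 2 * a * b + τ + ((c * e : ℕ) : ℝ) := by
    have : ((∑ i, w i : ℕ) : ℝ) = ((2 * a * b + τ + c * e : ℕ) : ℝ) := by rw [hsum]
    push_cast at this ⊢
    exact this
  have hlowR : (n : ℝ) * m ≤ 2 * a * b + τ + ((c * e : ℕ) : ℝ) := by
    rw [← hsumR]
    have : ((n * m : ℕ) : ℝ) ≤ ((∑ i, w i : ℕ) : ℝ) := by exact_mod_cast hlow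
    push_cast at this
    exact this
  rw [← hX] at hcrit
  rw [hsumR] at hX
  have hX' : √(n : ℝ) * (2 * d + 3) = X + n + 2 * (2 * a * b + τ + ((c * e : ℕ) : ℝ)) := by rw [hX]; ring
  obtain ⟨t, ht⟩ : ∃ t : ℕ, t = (d + 2).choose 2 - cond w := ⟨_, rfl⟩
  have t2' : 2 * (((e + 1).choose 2 : ℕ) : ℝ) = e * (e + 1) := by exact_mod_cast two_choose e
  have hD := near_D (cf := cf) hrem hb hw hn4 hn hsum hτ hε hX' (by
    rw [condM_smul, condM_single, hcf]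
    push_cast
    have : 8 * ((c : ℝ) * (((e + 1).choose 2 : ℕ) : ℝ)) = 4 * c * (e * (e + 1)) := by rw [← t2']; ring
    rw [this]
    ring) ht
  obtain ⟨x0, x1, x2, hx, hτ2, hH⟩ := hgood m τ b ε cf t X hm hτ htype hcrit hD
  exact near_fin hrem hb hw hn4 hn (deg_large hn hm hcrit hlowR hX') hsum hX' ht hx hτ2 hH

/-- **the critical degrees**, `n = 69` -/
theorem near_crit69 {m : ℕ} {w : Fin 69 → ℕ}
    (hw : ∀ i, w i = m ∨ w i = m + 1) (hm : ((69 : ℕ) : ℝ) - 6 * √((69 : ℕ) : ℝ) + 10 ≤ m) {d : ℕ}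
    (hcrit : |√((69 : ℕ) : ℝ) * (2 * d + 3) - ((69 : ℕ) + 2 * (∑ i, (w i : ℝ)))| ≤
      2 * √((69 : ℕ) : ℝ) / 3 + 9 / 4) :
    ((d + 2).choose 2 ≤ cond w → Emp w (TZ d)) ∧ (cond w ≤ (d + 2).choose 2 → Sur w (TZ d)) := by
  obtain ⟨hn4, hg2, hg3⟩ := chk2_sound chk_69
  have hES : HE 5 ∧ HS 5 := HEHS (n := 69) (by norm_num)
  have hlow : 69 * m ≤ ∑ i, w i := by
    have h1 : ∑ _i : Fin 69, m ≤ ∑ i, w i := sum_le_sum fun i _ => by
      rcases hw i with h | h <;> omega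
    simpa using h1
  have hup : ∑ i, w i ≤ 69 * m + 69 := by
    have h1 : ∑ i, w i ≤ ∑ _i : Fin 69, (m + 1) := sum_le_sum fun i _ => by
      rcases hw i with h | h <;> omega
    simp only [sum_const, card_univ, Fintype.card_fin, smul_eq_mul] at h1
    linarith
  obtain ⟨u, hu⟩ := Nat.exists_eq_add_of_le hlow
  obtain ⟨X, hX⟩ : ∃ X : ℝ, X = √((69 : ℕ) : ℝ) * (2 * d + 3) - ((69 : ℕ) + 2 * (∑ i, (w i : ℝ))) :=
    ⟨_, rfl⟩
  rw [← hX] at hcrit
  obtain ⟨t, ht⟩ : ∃ t : ℕ, t = (d + 2).choose 2 - cond w := ⟨_, rfl⟩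
  have hlowR : ((69 : ℕ) : ℝ) * m ≤ ∑ i, (w i : ℝ) := by
    have : ((69 * m : ℕ) : ℝ) ≤ ((∑ i, w i : ℕ) : ℝ) := by exact_mod_cast hlow
    push_cast at this ⊢
    exact this
  have hd : √((69 : ℕ) : ℝ) * ((69 : ℕ) + 10) ≤ 16 * d :=
    deg_large (by norm_num) hm hcrit hlowR (by rw [hX]; ring)
  have hXg : ∀ b τ V : ℕ, ∑ i, w i = 2 * 16 * b + τ + V →
      √((69 : ℕ) : ℝ) * (2 * d + 3) = X + (69 : ℕ) + 2 * (2 * (16 : ℕ) * b + τ + V) := by
    intro b τ V h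
    have h1 : (∑ i, (w i : ℝ)) = 2 * (16 : ℕ) * b + τ + V := by
      have : ((∑ i, w i : ℕ) : ℝ) = ((2 * 16 * b + τ + V : ℕ) : ℝ) := by rw [h]
      push_cast at this ⊢
      linarith
    rw [hX, h1]
    ring
  have t2' : ∀ e : ℕ, 2 * (((e + 1).choose 2 : ℕ) : ℝ) = e * (e + 1) := fun e => by
    exact_mod_cast two_choose e
  rcases le_or_gt u (4 * 16) with h' | h'
  · -- `e = m`
    obtain ⟨b, τ, ε, cf, cf', hb, hb1, hb2, hτ, htype, hε, hcf, hcf', hsum⟩ : ∃ b τ ε cf cf' : ℕ,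
        (b = 2 * m ∨ b = 2 * m + 1) ∧ b ≤ 2 * m + 1 ∧ 2 * m ≤ b + 1 ∧ τ ≤ 2 * 16 ∧
        ((b = 2 * m ∧ ε = 1 ∧ cf = 5 ∧ cf' = 1) ∨ (b = 2 * m + 1 ∧ ε = 0 ∧ cf = 0 ∧ cf' = 0)) ∧
        2 * ((b + 2) / 2) = b + 1 + ε ∧ (cf : ℝ) = 5 * (1 - (2 * m - b) ^ 2) ∧
        (cf' : ℝ) + 8 * (5 * (((m + 1).choose 2 : ℕ) : ℝ) + (m + 1)) =
          5 * (b + 1) ^ 2 + 2 * (b + 1) * (2 * (5 * m + 1) - 5 * b) ∧
        ∑ i, w i = 2 * 16 * b + τ + 5 * m := by
      have t3 : 8 * (5 * (((m + 1).choose 2 : ℕ) : ℝ) + (m + 1)) = 20 * (m * (m + 1)) + 8 * (m + 1) := by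
        rw [← t2' m]; ring
      rw [t3]
      rcases le_or_gt u (2 * 16) with h | h
      · refine ⟨2 * m, u, 1, 5, 1, Or.inl rfl, by omega, by omega, h,
          Or.inl ⟨rfl, rfl, rfl, rfl⟩, by omega, ?_, ?_, ?_⟩
        · push_cast; ring
        · push_cast; ring
        · rw [hu]; ring
      · refine ⟨2 * m + 1, u - 2 * 16, 0, 0, 0, Or.inr rfl, by omega, by omega, by omega,
          Or.inr ⟨rfl, rfl, rfl, rfl⟩, by omega, ?_, ?_, ?_⟩
        · push_cast; ring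
        · push_cast; ring
        · obtain ⟨v, rfl⟩ := Nat.exists_eq_add_of_le h.le
          rw [hu, Nat.add_sub_cancel_left]; ring
    have hrem := rem_c (m := m) (b := b) hES (Or.inl rfl) hb1 hb2
    have hmix := rem_mix (m := m) (b := b) hb
    have hD := near_D (a := 16) (cf := cf) hrem hb hw hn4 (by norm_num) hsum hτ hε (hXg _ _ _ hsum) (by
      rw [condM_smul, condM_single, hcf]
      push_cast
      have : 8 * (5 * (((m + 1).choose 2 : ℕ) : ℝ)) = 20 * (m * (m + 1)) := by rw [← t2' m]; ring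
      rw [this]
      ring) ht
    have hsum' : 1 ≤ τ → ∑ i, w i = 2 * 16 * b + (τ - 1) + (5 * m + 1) := by
      intro h1
      omega
    have hD' : 1 ≤ τ → 2 * ((b : ℝ) + 1) * X - 1 - 4 * (((τ - 1 : ℕ) : ℝ) - (16 : ℕ)) * ε + cf' ≤ 8 * t := by
      intro h1
      refine near_D (a := 16) (cf := cf') hmix hb hw hn4 (by norm_num) (hsum' h1) (by omega) hε
        (hXg _ _ _ (hsum' h1)) ?_ ht
      rw [condM_VM]
      push_cast
      exact hcf'
    rcases hg2 m τ b ε cf cf' t X hm hτ htype hcrit hD hD' with ⟨x0, x1, x2, hx, hτ2, hH⟩ |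
      ⟨h1, x0, x1, x2, hx, hτ2, hH⟩
    · exact near_fin hrem hb hw hn4 (by norm_num) hd hsum (hXg _ _ _ hsum) ht hx hτ2 hH
    · exact near_fin hmix hb hw hn4 (by norm_num) hd (hsum' h1) (hXg _ _ _ (hsum' h1)) ht hx hτ2 hH
  · -- `e = m + 1`
    obtain ⟨v, rfl⟩ := Nat.exists_eq_add_of_le (show 2 * 16 + 5 ≤ u by omega)
    have hrem := rem_c (m := m) (b := 2 * m + 1) hES (Or.inr rfl) (by omega) (by omega)
    have hsum : ∑ i, w i = 2 * 16 * (2 * m + 1) + v + 5 * (m + 1) := by rw [hu]; ring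
    have hD := near_D (a := 16) (ε := 0) (cf := 0) hrem (Or.inr rfl) hw hn4 (by norm_num) hsum (by omega)
      (by omega) (hXg _ _ _ hsum) (by
      rw [condM_smul, condM_single]
      have h1 := t2' (m + 1)
      push_cast at h1 ⊢
      have : 8 * (5 * (((m + 1 + 1).choose 2 : ℕ) : ℝ)) = 20 * ((m + 1) * (m + 1 + 1)) := by
        rw [← h1]; ring
      rw [zero_add, this]
      ring) ht
    obtain ⟨x0, x1, x2, hx, hτ2, hH⟩ := hg3 m v (2 * m + 1) t X hm (by omega) (by omega) rfl hcrit (by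
      push_cast at hD ⊢
      linarith)
    exact near_fin hrem (Or.inr rfl) hw hn4 (by norm_num) hd hsum (hXg _ _ _ hsum) ht hx hτ2 hH

/-- **Every degree** at `n ≥ 37` points of multiplicities `m`, `m + 1`. -/
theorem near37 {n m : ℕ} (hn : 37 ≤ n) (hm1 : 1 ≤ m) {w : Fin n → ℕ}
    (hw : ∀ i, w i = m ∨ w i = m + 1) {L : Type} [Field L] [CharZero L] :
    ∃ F : MvPolynomial (Fin n × Fin 2) ℚ, F ≠ 0 ∧ ∀ (P : Fin n → Fin 2 → L),
      MvPolynomial.aeval (fun ij : Fin n × Fin 2 => P ij.1 ij.2) F ≠ 0 →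
      ∀ d : ℕ, ExpDim L w P d := by
  refine Pool.Agent.TH941.NU.near_of_window (by omega) hm1 hw fun hm d hcrit => ?_
  by_cases h69 : n = 69
  · subst h69
    exact near_crit69 hw hm hcrit
  · exact near_crit hn h69 hw hm hcrit

end Pool.Agent.X167.NU
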